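import Pool.Agent.W95.EQ.Stm

/-!
# EQM-KER2: the integrals of the kernels for all radii
-/

set_option autoImplicit false

open Polynomial Topology Filter MeasureTheory
open scoped ENNReal

namespace Pool.Agent.W753.EQ.Ker2

open Pool.Agent.W95.BK Pool.Agent.W95.EQ

universe u

section gn
variable {K : Type u} [NontriviallyNormedField K] [IsUltrametricDist K]

theorem gn_mono (a : K) {r r' : ℝ} (hr : 0 < r) (h : r ≤ r') (f : K[X]) :
    gn a r f ≤ gn a r' f := by
  unfold gn
  obtain ⟨i, hi⟩ := exists_eq_gaussNorm (NormedField.toAbsoluteValue K) r (taylor a f)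
  rw [hi]
  refine le_trans ?_ (le_gaussNorm _ _ (hr.le.trans h) i)
  exact mul_le_mul_of_nonneg_left (pow_le_pow_left₀ hr.le h i) (AbsoluteValue.nonneg _ _)

theorem gn_le (a : K) {r r' : ℝ} (hr : 0 < r) (h : r ≤ r') (f : K[X]) {N : ℕ}
    (hN : f.natDegree ≤ N) : gn a r' f ≤ (r' / r) ^ N * gn a r f := by
  unfold gn
  have hq : 1 ≤ r' / r := by rwa [one_le_div hr]
  obtain ⟨i, hi⟩ := exists_eq_gaussNorm (NormedField.toAbsoluteValue K) r' (taylor a f)
  rw [hi]
  have h0 : 0 ≤ (r' / r) ^ N * (taylor a f).gaussNorm (NormedField.toAbsoluteValue K) r :=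
    mul_nonneg (pow_nonneg (by linarith) _) (gaussNorm_nonneg _ _ hr.le)
  by_cases hc : (taylor a f).coeff i = 0
  · rw [hc, _root_.map_zero, zero_mul]
    exact h0
  · have h1 : i ≤ N := by
      have h2 := le_natDegree_of_ne_zero hc
      rw [natDegree_taylor] at h2
      exact h2.trans hN
    have h3 : r' ^ i = (r' / r) ^ i * r ^ i := by
      rw [← mul_pow, div_mul_cancel₀ _ hr.ne']
    rw [h3]
    calc (NormedField.toAbsoluteValue K) ((taylor a f).coeff i) * ((r' / r) ^ i * r ^ i)
        = (r' / r) ^ i * ((NormedField.toAbsoluteValue K) ((taylor a f).coeff i) * r ^ i) := by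
          ring
      _ ≤ (r' / r) ^ N * (taylor a f).gaussNorm (NormedField.toAbsoluteValue K) r :=
          mul_le_mul (pow_le_pow_right₀ hq h1) (le_gaussNorm _ _ hr.le i)
            (mul_nonneg (AbsoluteValue.nonneg _ _) (pow_nonneg hr.le _))
            (pow_nonneg (by linarith) _)

end gn

section kap
variable {K : Type u} [NontriviallyNormedField K]

theorem log_max_bd {l r r' : ℝ} (hr : 0 < r) (h : r ≤ r') :
    0 ≤ Real.log (max l r') - Real.log (max l r) ∧
      Real.log (max l r') - Real.log (max l r) ≤ Real.log (r' / r) := by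
  have h1 : 0 < max l r := lt_max_of_lt_right hr
  have h2 : 0 < max l r' := lt_max_of_lt_right (hr.trans_le h)
  have hq : 1 ≤ r' / r := by rwa [one_le_div hr]
  constructor
  · exact sub_nonneg.2 (Real.log_le_log h1 (max_le_max_left _ h))
  · rw [sub_le_iff_le_add, ← Real.log_mul (by positivity) h1.ne']
    apply Real.log_le_log h2
    have h3 : r' = r' / r * r := by rw [div_mul_cancel₀ _ hr.ne']
    apply max_le
    · calc l ≤ max l r := le_max_left _ _
        _ = 1 * max l r := by ring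
        _ ≤ r' / r * max l r := mul_le_mul_of_nonneg_right hq h1.le
    · calc r' = r' / r * r := h3
        _ ≤ r' / r * max l r := mul_le_mul_of_nonneg_left (le_max_right _ _) (by linarith)

theorem kap_bd (a : K) {r r' : ℝ} (hr : 0 < r) (h : r ≤ r') (x : P1B K) :
    0 ≤ kap a r' x - kap a r x ∧ kap a r' x - kap a r x ≤ Real.log (r' / r) := by
  have hq : 1 ≤ r' / r := by rwa [one_le_div hr]
  induction x using OnePoint.rec with
  | infty =>
    have e : ∀ s : ℝ, kap a s (OnePoint.infty : P1B K) = 0 := fun s => rfl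
    rw [e, e, sub_zero]
    exact ⟨le_rfl, Real.log_nonneg hq⟩
  | coe y =>
    have e : ∀ s : ℝ, kap a s ((y : BA K) : P1B K) =
      Real.log (max (lam y a) s) - Real.log (max 1 (y X)) := fun s => rfl
    rw [e, e]
    have h1 := log_max_bd (l := lam y a) hr h
    constructor
    · linarith [h1.1]
    · linarith [h1.2]

theorem ker_eq (a : K) (s t : ℝ) (x : P1B K) : ker a s t x = kap a t x - kap a s x := by
  induction x using OnePoint.rec with
  | infty =>
    have e : ∀ s : ℝ, kap a s (OnePoint.infty : P1B K) = 0 := fun s => rfl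
    have e' : ker a s t (OnePoint.infty : P1B K) = 0 := rfl
    rw [e, e, e', sub_zero]
  | coe y =>
    have e : ∀ s : ℝ, kap a s ((y : BA K) : P1B K) =
      Real.log (max (lam y a) s) - Real.log (max 1 (y X)) := fun s => rfl
    have e' : ker a s t ((y : BA K) : P1B K) =
      Real.log (max (lam y a) t) - Real.log (max (lam y a) s) := rfl
    rw [e, e, e']
    ring

end kap

section gr
variable {K : Type u} [NontriviallyNormedField K] [IsUltrametricDist K] [IsAlgClosed K]

/-- the approximants of the Green function -/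
noncomputable def un (R : RMap K) (x : BA K) (n : ℕ) : ℝ :=
  Real.log (max (x (R.iter n).P) (x (R.iter n).Q)) / (R.d : ℝ) ^ n

theorem un_tendsto (hG : S_GREEN.{u}) (R : RMap K) (hd : 2 ≤ R.d) (x : BA K) :
    Tendsto (un R x) atTop (𝓝 (gr R x)) := by
  obtain ⟨B, hB, h⟩ := hG K R hd
  have hd1 : (1 : ℝ) < (R.d : ℝ) := by exact_mod_cast (by omega : 1 < R.d)
  have h1 : Tendsto (fun n : ℕ => B / (R.d : ℝ) ^ n) atTop (𝓝 0) :=
    Tendsto.div_atTop tendsto_const_nhds (tendsto_pow_atTop_atTop_of_one_lt hd1)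
  rw [tendsto_iff_dist_tendsto_zero]
  refine squeeze_zero (fun n => dist_nonneg) (fun n => ?_) h1
  rw [Real.dist_eq]
  exact ((h x).2 n).2

theorem un_bd (hI : S_ITER.{u}) (hG : S_GREEN.{u}) (R : RMap K) (hd : 2 ≤ R.d) (a : K)
    {r r' : ℝ} (hr : 0 < r) (h : r ≤ r') (n : ℕ) :
    0 ≤ un R (gauss a r' (hr.trans_le h)) n - un R (gauss a r hr) n ∧
      un R (gauss a r' (hr.trans_le h)) n - un R (gauss a r hr) n ≤ Real.log (r' / r) := by
  obtain ⟨B, hB, hG'⟩ := hG K R hd
  obtain ⟨hdn, -⟩ := hI K R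
  have hd0 : (0 : ℝ) < (R.d : ℝ) := by exact_mod_cast (by omega : 0 < R.d)
  have hdn0 : (0 : ℝ) < (R.d : ℝ) ^ n := pow_pos hd0 n
  have hq : 1 ≤ r' / r := by rwa [one_le_div hr]
  have e1 : ∀ f : K[X], gauss a r hr f = gn a r f := fun f => rfl
  have e2 : ∀ f : K[X], gauss a r' (hr.trans_le h) f = gn a r' f := fun f => rfl
  have p1 := ((hG' (gauss a r hr)).2 n).1
  have p2 := ((hG' (gauss a r' (hr.trans_le h))).2 n).1
  rw [e1, e1] at p1
  rw [e2, e2] at p2
  have hNP : (R.iter n).P.natDegree ≤ R.d ^ n := by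
    rw [← hdn n, ← (R.iter n).deg_eq]; exact le_max_left _ _
  have hNQ : (R.iter n).Q.natDegree ≤ R.d ^ n := by
    rw [← hdn n, ← (R.iter n).deg_eq]; exact le_max_right _ _
  unfold un
  rw [e1, e1, e2, e2, ← sub_div]
  constructor
  · apply div_nonneg _ hdn0.le
    exact sub_nonneg.2 (Real.log_le_log p1 (max_le_max (gn_mono a hr h _) (gn_mono a hr h _)))
  · rw [div_le_iff₀ hdn0, sub_le_iff_le_add]
    have h3 : max (gn a r' (R.iter n).P) (gn a r' (R.iter n).Q) ≤
        (r' / r) ^ (R.d ^ n) * max (gn a r (R.iter n).P) (gn a r (R.iter n).Q) := by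
      apply max_le
      · exact (gn_le a hr h _ hNP).trans (mul_le_mul_of_nonneg_left (le_max_left _ _)
          (pow_nonneg (by linarith) _))
      · exact (gn_le a hr h _ hNQ).trans (mul_le_mul_of_nonneg_left (le_max_right _ _)
          (pow_nonneg (by linarith) _))
    have h4 := Real.log_le_log p2 h3
    rw [Real.log_mul (pow_pos (by linarith) _).ne' p1.ne', Real.log_pow] at h4
    push_cast at h4
    linarith [mul_comm (Real.log (r' / r)) ((R.d : ℝ) ^ n)]

theorem gr_bd (hI : S_ITER.{u}) (hG : S_GREEN.{u}) (R : RMap K) (hd : 2 ≤ R.d) (a : K)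
    {r r' : ℝ} (hr : 0 < r) (h : r ≤ r') :
    0 ≤ gr R (gauss a r' (hr.trans_le h)) - gr R (gauss a r hr) ∧
      gr R (gauss a r' (hr.trans_le h)) - gr R (gauss a r hr) ≤ Real.log (r' / r) := by
  have h1 := (un_tendsto hG R hd (gauss a r' (hr.trans_le h))).sub
    (un_tendsto hG R hd (gauss a r hr))
  exact ⟨ge_of_tendsto' h1 fun n => (un_bd hI hG R hd a hr h n).1,
    le_of_tendsto' h1 fun n => (un_bd hI hG R hd a hr h n).2⟩

end gr

theorem main : S_KAPC.{u} → S_DVG.{u} → S_ITER.{u} → S_GREEN.{u} → S_KER2.{u} := by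
  intro hK hD hI hG K _ _ _ R hd ρ hρ hyp a s t hs ht
  have hint : ∀ r : ℝ, 0 < r → Integrable (kap a r) ρ := fun r hr =>
    (hK K a r hr).1.integrable_of_hasCompactSupport (HasCompactSupport.of_compactSpace _)
  -- the defect
  let g : ℝ → ℝ := fun r => ∫ x, kap a r x ∂ρ
  have hg : ∀ r r' : ℝ, 0 < r → r ≤ r' → 0 ≤ g r' - g r ∧ g r' - g r ≤ Real.log (r' / r) := by
    intro r r' hr h
    have e : g r' - g r = ∫ x, (kap a r' x - kap a r x) ∂ρ := by
      rw [integral_sub (hint r' (hr.trans_le h)) (hint r hr)]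
    rw [e]
    constructor
    · exact integral_nonneg fun x => (kap_bd a hr h x).1
    · have h1 : ∫ x, (kap a r' x - kap a r x) ∂ρ ≤ ∫ _x : P1B K, Real.log (r' / r) ∂ρ :=
        integral_mono ((hint r' (hr.trans_le h)).sub (hint r hr)) (integrable_const _)
          fun x => (kap_bd a hr h x).2
      simpa using h1
  -- all radii
  have key : ∀ (r : ℝ) (hr : 0 < r), g r = gr R (gauss a r hr) - gr R (gauss 0 1 one_pos) := by
    intro r hr
    have hε : ∀ ε : ℝ, 0 < ε →
        |g r - (gr R (gauss a r hr) - gr R (gauss 0 1 one_pos))| ≤ ε := by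
      intro ε hε
      have h1 : r < r * Real.exp ε := by
        have := Real.one_lt_exp_iff.2 hε
        nlinarith
      obtain ⟨c, hc1, hc2⟩ := hD K r (r * Real.exp ε) hr h1
      have hc0 : 0 < ‖c‖ := hr.trans hc1
      have h2 := hyp a c ‖c‖ hc0 rfl
      obtain ⟨h3, h4⟩ := hg r ‖c‖ hr hc1.le
      obtain ⟨h5, h6⟩ := gr_bd hI hG R hd a hr hc1.le
      have h7 : Real.log (‖c‖ / r) ≤ ε := by
        rw [Real.log_le_iff_le_exp (by positivity), div_le_iff₀ hr]
        linarith [mul_comm r (Real.exp ε)]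
      have h8 : g ‖c‖ = gr R (gauss a ‖c‖ hc0) - gr R (gauss 0 1 one_pos) := h2
      rw [abs_le]
      constructor <;> linarith
    have h0 : |g r - (gr R (gauss a r hr) - gr R (gauss 0 1 one_pos))| ≤ 0 :=
      le_of_forall_pos_le_add (fun ε he => by rw [zero_add]; exact hε ε he)
    exact sub_eq_zero.1 (abs_nonpos_iff.1 h0)
  have e : ∫ x, ker a s t x ∂ρ = g t - g s := by
    rw [← integral_sub (hint t ht) (hint s hs)]
    exact integral_congr_ae (Filter.Eventually.of_forall fun x => ker_eq a s t x)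
  rw [e, key t ht, key s hs]
  ring

end Pool.Agent.W753.EQ.Ker2
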